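import Mathlib

/-!
# Fourier coefficients over a field in which `2` is invertible
-/

set_option autoImplicit false

namespace Pool.Agent.TH163.OD

open Finset

lemma bit01 : ∀ a : ZMod 2, a = 0 ∨ a = 1 := by decide

/-- the sign of a bit -/
def sg (F : Type) [Field F] (t : ZMod 2) : F := if t = 0 then 1 else -1

section

variable {F : Type} [Field F]

lemma sg_zero : sg F 0 = 1 := by simp [sg]

lemma sg_one : sg F 1 = -1 := by simp [sg]

lemma sg_add (s t : ZMod 2) : sg F (s + t) = sg F s * sg F t := by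
  have h2 : (1 : ZMod 2) + 1 = 0 := by decide
  rcases bit01 s with rfl | rfl <;> rcases bit01 t with rfl | rfl
  · rw [zero_add, sg_zero, one_mul]
  · rw [zero_add, sg_zero, one_mul]
  · rw [add_zero, sg_zero, mul_one]
  · rw [h2, sg_zero, sg_one]
    ring

lemma sg_ne_zero (t : ZMod 2) : sg F t ≠ 0 := by
  rcases bit01 t with rfl | rfl
  · rw [sg_zero]; exact one_ne_zero
  · rw [sg_one]; exact neg_ne_zero.2 one_ne_zero

lemma eq_zero_of_eq_neg (hF : (2 : F) ≠ 0) (S : F) (h : S = -S) : S = 0 := by
  have h1 : 2 * S = 0 := by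
    have : 2 * S = S + S := by ring
    rw [this]
    nth_rewrite 1 [h]
    ring
  exact (mul_eq_zero.1 h1).resolve_left hF

end

variable {ι : Type} [Fintype ι]

/-- the inner product -/
def ip (T x : ι → ZMod 2) : ZMod 2 := ∑ e, T e * x e

lemma ip_add_left (T S x : ι → ZMod 2) : ip (T + S) x = ip T x + ip S x := by
  unfold ip
  rw [← Finset.sum_add_distrib]
  apply Finset.sum_congr rfl
  intro e _
  rw [Pi.add_apply, add_mul]

lemma ip_add_right (T x y : ι → ZMod 2) : ip T (x + y) = ip T x + ip T y := by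
  unfold ip
  rw [← Finset.sum_add_distrib]
  apply Finset.sum_congr rfl
  intro e _
  rw [Pi.add_apply, mul_add]

/-- the number of ones -/
def wt (T : ι → ZMod 2) : ℕ := (univ.filter (fun e => T e ≠ 0)).card

lemma wt_add_le (S T : ι → ZMod 2) : wt (S + T) ≤ wt S + wt T := by
  classical
  unfold wt
  refine le_trans ?_ (Finset.card_union_le _ _)
  apply Finset.card_le_card
  intro e he
  rw [Finset.mem_filter] at he
  rw [Finset.mem_union, Finset.mem_filter, Finset.mem_filter]
  by_contra hc
  push Not at hc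
  apply he.2
  rw [Pi.add_apply, hc.1 (Finset.mem_univ _), hc.2 (Finset.mem_univ _), add_zero]

variable [DecidableEq ι] {F : Type} [Field F]

lemma ip_single (T : ι → ZMod 2) (e : ι) : ip T (Pi.single e 1) = T e := by
  unfold ip
  simp [Pi.single_apply]

lemma ip_single_left (x : ι → ZMod 2) (e : ι) : ip (Pi.single e 1) x = x e := by
  unfold ip
  simp [Pi.single_apply]

/-- the Fourier coefficient -/
def fc (f : (ι → ZMod 2) → F) (T : ι → ZMod 2) : F := ∑ x, f x * sg F (ip T x)

/-- the value of a polynomial at a vector of bits -/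
noncomputable def ev (P : MvPolynomial ι F) (x : ι → ZMod 2) : F :=
  MvPolynomial.eval (fun e => if x e = 1 then (1 : F) else 0) P

lemma fc_ev (hF : (2 : F) ≠ 0) (P : MvPolynomial ι F) (T : ι → ZMod 2)
    (hT : P.totalDegree < wt T) : fc (ev P) T = 0 := by
  unfold fc ev
  simp only [MvPolynomial.eval_eq, Finset.sum_mul]
  rw [Finset.sum_comm]
  apply Finset.sum_eq_zero
  intro d hd
  have h1 : d.support.card < wt T := by
    refine lt_of_le_of_lt ?_ hT
    refine le_trans ?_ (MvPolynomial.le_totalDegree hd)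
    unfold Finsupp.sum
    rw [Finset.card_eq_sum_ones]
    apply Finset.sum_le_sum
    intro i hi
    exact Nat.one_le_iff_ne_zero.2 (Finsupp.mem_support_iff.1 hi)
  obtain ⟨e0, he0, he1⟩ := Finset.exists_mem_notMem_of_card_lt_card h1
  have hT1 : T e0 = 1 := (bit01 _).resolve_left (Finset.mem_filter.1 he0).2
  apply eq_zero_of_eq_neg hF
  rw [← Finset.sum_neg_distrib]
  refine (Fintype.sum_equiv (Equiv.addRight (Pi.single e0 (1 : ZMod 2) : ι → ZMod 2)) _ _ ?_)
  intro x
  rw [Equiv.coe_addRight]
  simp only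
  rw [ip_add_right, ip_single, hT1, sg_add, sg_one]
  have h2 : ∏ i ∈ d.support, (if (x + (Pi.single e0 (1 : ZMod 2) : ι → ZMod 2)) i = 1 then (1 : F) else 0) ^ d i =
      ∏ i ∈ d.support, (if x i = 1 then (1 : F) else 0) ^ d i := by
    apply Finset.prod_congr rfl
    intro i hi
    have hne : i ≠ e0 := by
      rintro rfl
      exact he1 hi
    rw [Pi.add_apply, Pi.single_eq_of_ne hne, add_zero]
  rw [h2]
  ring

open Classical in
lemma sum_sg (hF : (2 : F) ≠ 0) (V : Submodule (ZMod 2) (ι → ZMod 2)) (u : ι → ZMod 2) :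
    ∑ W ∈ univ.filter (· ∈ V), sg F (ip W u) =
      if ∀ W ∈ V, ip W u = 0 then ((univ.filter (· ∈ V)).card : F) else 0 := by
  split_ifs with h
  · rw [Finset.card_eq_sum_ones, Nat.cast_sum]
    apply Finset.sum_congr rfl
    intro W hW
    rw [h W (Finset.mem_filter.1 hW).2, sg_zero, Nat.cast_one]
  · push Not at h
    obtain ⟨W0, hW0, hne⟩ := h
    have hW1 : ip W0 u = 1 := (bit01 _).resolve_left hne
    apply eq_zero_of_eq_neg hF
    rw [← Finset.sum_neg_distrib]
    apply Finset.sum_bij' (fun W _ => W + W0) (fun W _ => W + W0)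
    · intro W hW
      exact Finset.mem_filter.2 ⟨Finset.mem_univ _, V.add_mem (Finset.mem_filter.1 hW).2 hW0⟩
    · intro W hW
      exact Finset.mem_filter.2 ⟨Finset.mem_univ _, V.add_mem (Finset.mem_filter.1 hW).2 hW0⟩
    · intro W _
      rw [add_assoc, ZModModule.add_self, add_zero]
    · intro W _
      rw [add_assoc, ZModModule.add_self, add_zero]
    · intro W _
      rw [ip_add_left, sg_add, hW1, sg_one]
      ring

open Classical in
lemma card_ne (hF : (2 : F) ≠ 0) (V : Submodule (ZMod 2) (ι → ZMod 2)) :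
    ((univ.filter (· ∈ V)).card : F) ≠ 0 := by
  have h1 : (univ.filter (· ∈ V)).card = 2 ^ Module.finrank (ZMod 2) V := by
    have h2 : Nat.card V = Nat.card (ZMod 2) ^ Module.finrank (ZMod 2) V :=
      Module.natCard_eq_pow_finrank
    rw [Nat.card_zmod] at h2
    rw [← h2, Nat.card_eq_fintype_card, Fintype.card_subtype]
  rw [h1, Nat.cast_pow]
  exact pow_ne_zero _ (by exact_mod_cast hF)

/-- a function that is not zero has a Fourier coefficient that is not zero -/
lemma exists_fc (hF : (2 : F) ≠ 0) (f : (ι → ZMod 2) → F) (y : ι → ZMod 2) (hy : f y ≠ 0) :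
    ∃ T, fc f T ≠ 0 := by
  classical
  by_contra hc
  push Not at hc
  have h1 : ∑ T : ι → ZMod 2, sg F (ip T y) * fc f T = 0 :=
    Finset.sum_eq_zero (fun T _ => by rw [hc T, mul_zero])
  have h2 : ∑ T : ι → ZMod 2, sg F (ip T y) * fc f T =
      ∑ x, f x * ∑ T : ι → ZMod 2, sg F (ip T (x + y)) := by
    unfold fc
    simp only [Finset.mul_sum]
    rw [Finset.sum_comm]
    apply Finset.sum_congr rfl
    intro x _
    apply Finset.sum_congr rfl
    intro T _
    rw [ip_add_right, sg_add]
    ring
  have h3 : ∀ u : ι → ZMod 2, ∑ T : ι → ZMod 2, sg F (ip T u) =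
      if u = 0 then ((univ.filter (· ∈ (⊤ : Submodule (ZMod 2) (ι → ZMod 2)))).card : F) else 0 := by
    intro u
    have h4 := sum_sg hF (⊤ : Submodule (ZMod 2) (ι → ZMod 2)) u
    have h5 : (univ.filter (· ∈ (⊤ : Submodule (ZMod 2) (ι → ZMod 2)))) = univ := by
      ext x
      simp
    rw [h5] at h4 ⊢
    rw [h4]
    congr 1
    apply propext
    constructor
    · intro h
      funext e
      have := h (Pi.single e 1) trivial
      rwa [ip_single_left] at this
    · rintro rfl W _
      unfold ip
      simp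
  rw [h2] at h1
  rw [Finset.sum_eq_single y] at h1
  · rw [h3, if_pos (ZModModule.add_self y)] at h1
    rcases mul_eq_zero.1 h1 with h4 | h4
    · exact hy h4
    · exact card_ne hF _ h4
  · intro x _ hx
    rw [h3, if_neg, mul_zero]
    intro h4
    apply hx
    have h5 : x = x + y + y := by rw [add_assoc, ZModModule.add_self, add_zero]
    rw [h5, h4, zero_add]
  · intro h
    exact absurd (Finset.mem_univ _) h

open Classical in
/-- the Fourier coefficients of the restriction to an affine space -/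
lemma exists_of_fc_restrict (hF : (2 : F) ≠ 0) (g : (ι → ZMod 2) → F)
    (V : Submodule (ZMod 2) (ι → ZMod 2)) (x0 T : ι → ZMod 2)
    (h : fc (fun x => g x * if ∀ W ∈ V, ip W (x + x0) = 0 then 1 else 0) T ≠ 0) :
    ∃ W ∈ V, fc g (T + W) ≠ 0 := by
  by_contra hc
  push Not at hc
  apply h
  have h1 : ((univ.filter (· ∈ V)).card : F) *
      fc (fun x => g x * if ∀ W ∈ V, ip W (x + x0) = 0 then 1 else 0) T =
      ∑ W ∈ univ.filter (· ∈ V), sg F (ip W x0) * fc g (T + W) := by
    unfold fc
    simp only [Finset.mul_sum]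
    rw [Finset.sum_comm]
    apply Finset.sum_congr rfl
    intro x _
    have h2 := sum_sg hF V (x + x0)
    have h3 : ((univ.filter (· ∈ V)).card : F) *
        (g x * (if ∀ W ∈ V, ip W (x + x0) = 0 then (1 : F) else 0) * sg F (ip T x)) =
        (if ∀ W ∈ V, ip W (x + x0) = 0 then ((univ.filter (· ∈ V)).card : F) else 0) *
          (g x * sg F (ip T x)) := by
      split_ifs
      · ring
      · ring
    rw [h3, ← h2, Finset.sum_mul]
    apply Finset.sum_congr rfl
    intro W _
    rw [ip_add_right, ip_add_left, sg_add, sg_add]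
    ring
  have h4 : ∑ W ∈ univ.filter (· ∈ V), sg F (ip W x0) * fc g (T + W) = 0 :=
    Finset.sum_eq_zero (fun W hW => by rw [hc W (Finset.mem_filter.1 hW).2, mul_zero])
  rw [h4] at h1
  exact (mul_eq_zero.1 h1).resolve_left (card_ne hF V)

/-- **the main lemma** -/
lemma exists_near (hF : (2 : F) ≠ 0) (m : ℕ) (P : MvPolynomial ι F) (hP : P.totalDegree ≤ m)
    (V : Submodule (ZMod 2) (ι → ZMod 2)) (x0 s : ι → ZMod 2) (h0 : ev P x0 ≠ 0)
    (hs : ∀ x, (∀ W ∈ V, ip W (x + x0) = 0) → ev P x ≠ 0 → ip s x = ip s x0) :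
    ∃ W ∈ V, wt (s + W) ≤ 2 * m := by
  classical
  set f : (ι → ZMod 2) → F :=
    fun x => ev P x * if ∀ W ∈ V, ip W (x + x0) = 0 then 1 else 0 with hf
  have h1 : f x0 ≠ 0 := by
    rw [hf]
    simp only
    rw [if_pos, mul_one]
    · exact h0
    · intro W _
      rw [ZModModule.add_self]
      unfold ip
      simp
  obtain ⟨T, hT⟩ := exists_fc hF f x0 h1
  have h2 : fc f (T + s) = sg F (ip s x0) * fc f T := by
    unfold fc
    rw [Finset.mul_sum]
    apply Finset.sum_congr rfl
    intro x _
    rw [ip_add_left, sg_add]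
    by_cases hx : f x = 0
    · rw [hx]; ring
    · have h3 : ip s x = ip s x0 := by
        apply hs x
        · by_contra hc
          apply hx
          rw [hf]
          simp only
          rw [if_neg hc, mul_zero]
        · intro hc
          apply hx
          rw [hf]
          simp only
          rw [hc, zero_mul]
      rw [h3]
      ring
  have h4 : fc f (T + s) ≠ 0 := by
    rw [h2]
    exact mul_ne_zero (sg_ne_zero _) hT
  obtain ⟨W, hW, hW2⟩ := exists_of_fc_restrict hF (ev P) V x0 T hT
  obtain ⟨W', hW', hW2'⟩ := exists_of_fc_restrict hF (ev P) V x0 (T + s) h4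
  have h5 : ∀ U : ι → ZMod 2, fc (ev P) U ≠ 0 → wt U ≤ m := by
    intro U hU
    by_contra hc
    apply hU
    apply fc_ev hF
    omega
  refine ⟨W + W', V.add_mem hW hW', ?_⟩
  have h6 : s + (W + W') = (T + W) + (T + s + W') := by
    have : (T + W) + (T + s + W') = (T + T) + (s + (W + W')) := by abel
    rw [this, ZModModule.add_self, zero_add]
  rw [h6]
  refine (wt_add_le _ _).trans ?_
  have := h5 _ hW2
  have := h5 _ hW2'
  omega

end Pool.Agent.TH163.OD
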