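import Pool.Agent.TH163.OD.Model
import Pool.Agent.TH163.OD.Fourier
import Pool.Agent.TH163.AC2.Core

/-!
# The probes of a single run
-/

set_option autoImplicit false

namespace Pool.Agent.TH163.OD

open Finset
open Pool.Agent.H699R2.OMV (Prog Vec Mat IsProb before)

variable {n : ℕ} {Ω A : Type} {w : ℕ}

/-- the matrix with the given entries -/
def mt (x : Fin n × Fin n → ZMod 2) : Mat n := fun r c => x (r, c)

/-- the entries of a matrix -/
def en (M : Mat n) : Fin n × Fin n → ZMod 2 := fun e => M e.1 e.2

lemma ip_prod (W x : Fin n × Fin n → ZMod 2) : ip W x = ∑ r, ∑ c, W (r, c) * x (r, c) := by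
  unfold ip
  rw [Fintype.sum_prod_type]

/-- the matrices whose rows are in the span of the list -/
def rowsIn (h : List (Vec n)) : Submodule (ZMod 2) (Fin n × Fin n → ZMod 2) where
  carrier := {W | ∀ r, (fun c => W (r, c)) ∈ Submodule.span (ZMod 2) {z | z ∈ h}}
  add_mem' := by
    intro a b ha hb r
    exact Submodule.add_mem _ (ha r) (hb r)
  zero_mem' := by
    intro r
    exact Submodule.zero_mem _
  smul_mem' := by
    intro t a ha r
    exact Submodule.smul_mem _ t (ha r)

lemma eq_of_add_eq_zero (a b : ZMod 2) (h : a + b = 0) : a = b := by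
  revert h
  revert a b
  decide

lemma products_eq (h : List (Vec n)) (M : Mat n) (x : Fin n × Fin n → ZMod 2)
    (hx : ∀ W ∈ rowsIn h, ip W (x + en M) = 0) : h.map (mt x).mulVec = h.map M.mulVec := by
  classical
  apply List.map_congr_left
  intro z hz
  funext r
  apply eq_of_add_eq_zero
  have h1 := hx (fun e => if e.1 = r then z e.2 else 0) (by
    intro r'
    show (fun c => if r' = r then z c else 0) ∈ _
    by_cases hr : r' = r
    · simp only [hr, if_true]
      exact Submodule.subset_span hz
    · simp only [if_neg hr]
      exact Submodule.zero_mem _)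
  rw [ip_prod, Finset.sum_eq_single r] at h1
  · rw [← h1]
    show (∑ c, x (r, c) * z c) + (∑ c, M r c * z c) = _
    rw [← Finset.sum_add_distrib]
    apply Finset.sum_congr rfl
    intro c _
    show x (r, c) * z c + M r c * z c = (if r = r then z c else 0) * (x (r, c) + M r c)
    rw [if_pos rfl]
    ring
  · intro r' _ hr
    apply Finset.sum_eq_zero
    intro c _
    show (if r' = r then z c else 0) * _ = 0
    rw [if_neg hr, zero_mul]
  · intro hc
    exact absurd (Finset.mem_univ _) hc

section

variable {F : Type} [Field F]

/-- the polynomial of the event that the cells in `l` have the given content -/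
noncomputable def agree (l : List A) (m0 : A → Fin w → Bool)
    (p : A → Fin w → MvPolynomial (Fin n × Fin n) F) : MvPolynomial (Fin n × Fin n) F :=
  (l.map (fun a => ∏ i, if m0 a i = true then p a i else 1 - p a i)).prod

lemma agree_degree (l : List A) (m0 : A → Fin w → Bool)
    (p : A → Fin w → MvPolynomial (Fin n × Fin n) F) (D : ℕ)
    (hp : ∀ a i, (p a i).totalDegree ≤ D) : (agree l m0 p).totalDegree ≤ D * w * l.length := by
  induction l with
  | nil => simp [agree]
  | cons a l ih =>
    have h1 : agree (a :: l) m0 p =
        (∏ i, if m0 a i = true then p a i else 1 - p a i) * agree l m0 p := by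
      simp [agree]
    rw [h1]
    refine (MvPolynomial.totalDegree_mul _ _).trans ?_
    have h2 : (∏ i, if m0 a i = true then p a i else 1 - p a i).totalDegree ≤ D * w := by
      refine (MvPolynomial.totalDegree_finsetProd _ _).trans ?_
      calc ∑ i : Fin w, (if m0 a i = true then p a i else 1 - p a i).totalDegree
          ≤ ∑ _i : Fin w, D := by
            apply Finset.sum_le_sum
            intro i _
            split_ifs
            · exact hp a i
            · refine (MvPolynomial.totalDegree_sub _ _).trans ?_
              rw [MvPolynomial.totalDegree_one]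
              exact max_le (Nat.zero_le _) (hp a i)
        _ = D * w := by simp [mul_comm]
    rw [List.length_cons]
    have h3 : D * w * (l.length + 1) = D * w + D * w * l.length := by ring
    rw [h3]
    exact Nat.add_le_add h2 ih

lemma agree_ev (l : List A) (m0 m : A → Fin w → Bool)
    (p : A → Fin w → MvPolynomial (Fin n × Fin n) F) (x : Fin n × Fin n → ZMod 2)
    (hp : ∀ a i, ev (p a i) x = if m a i = true then 1 else 0) :
    ev (agree l m0 p) x ≠ 0 ↔ ∀ a ∈ l, m a = m0 a := by
  induction l with
  | nil => simp [agree, ev]
  | cons a l ih =>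
    have h1 : agree (a :: l) m0 p =
        (∏ i, if m0 a i = true then p a i else 1 - p a i) * agree l m0 p := by
      simp [agree]
    have h2 : ev (agree (a :: l) m0 p) x =
        (∏ i, ev (if m0 a i = true then p a i else 1 - p a i) x) * ev (agree l m0 p) x := by
      rw [h1]
      unfold ev
      rw [map_mul, map_prod]
    rw [h2, mul_ne_zero_iff, ih, Finset.prod_ne_zero_iff, List.forall_mem_cons]
    have h3 : (∀ i ∈ (univ : Finset (Fin w)),
        ev (if m0 a i = true then p a i else 1 - p a i) x ≠ 0) ↔ m a = m0 a := by
      rw [funext_iff]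
      constructor
      · intro h i
        have h4 := h i (Finset.mem_univ _)
        rcases hm0 : m0 a i with _ | _
        · rw [hm0, if_neg Bool.false_ne_true] at h4
          have h5 : ev (1 - p a i) x = 1 - ev (p a i) x := by
            unfold ev
            rw [map_sub, map_one]
          rw [h5, hp] at h4
          rcases hm : m a i with _ | _
          · rfl
          · rw [hm] at h4
            simp at h4
        · rw [hm0, if_pos rfl, hp] at h4
          rcases hm : m a i with _ | _
          · rw [hm] at h4
            simp at h4
          · rfl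
      · intro h i _
        have h4 := h i
        rcases hm0 : m0 a i with _ | _
        · rw [if_neg Bool.false_ne_true]
          have h5 : ev (1 - p a i) x = 1 - ev (p a i) x := by
            unfold ev
            rw [map_sub, map_one]
          rw [h5, hp, h4, hm0]
          simp
        · rw [if_pos rfl, hp, h4, hm0]
          simp
    rw [h3]

end

lemma wt_prod (U : Fin n × Fin n → ZMod 2) :
    wt U = ∑ r, (univ.filter (fun c => U (r, c) ≠ 0)).card := by
  unfold wt
  rw [Finset.card_filter, Fintype.sum_prod_type]
  apply Finset.sum_congr rfl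
  intro r _
  rw [Finset.card_filter]

/-- **certificates**: cells that determine some bits of the product -/
theorem certificate {F : Type} [Field F] (hF : (2 : F) ≠ 0) {D : ℕ} (alg : Alg n Ω A w)
    (hD : alg.DegreeLE F D) (ω : Ω) (h : List (Vec n)) (v : Vec n) (M : Mat n) (l : List A)
    (R : Finset (Fin n))
    (hc : ∀ M' : Mat n, (∀ z ∈ h, M'.mulVec z = M.mulVec z) →
      (∀ a ∈ l, alg.mem ω h M' a = alg.mem ω h M a) → ∀ r ∈ R, M'.mulVec v r = M.mulVec v r) :
    dist v h * R.card ≤ 2 * D * w * l.length := by
  classical
  choose p hp1 hp2 using hD ω h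
  have hev : ∀ (x : Fin n × Fin n → ZMod 2) (a : A) (i : Fin w),
      ev (p a i) x = if alg.mem ω h (mt x) a i = true then 1 else 0 :=
    fun x a i => hp2 a i (mt x)
  have key := exists_near hF (D * w * l.length) (agree l (alg.mem ω h M) p)
    (agree_degree l _ p D hp1) (rowsIn h) (en M) (fun e => if e.1 ∈ R then v e.2 else 0)
    ((agree_ev l (alg.mem ω h M) (alg.mem ω h M) p (en M) (hev (en M))).2 (fun _ _ => rfl))
    (by
      intro x hx1 hx2
      have hx3 := (agree_ev l (alg.mem ω h M) (alg.mem ω h (mt x)) p x (hev x)).1 hx2
      have hx4 := products_eq h M x hx1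
      have hx6 : ∀ r ∈ R, (mt x).mulVec v r = M.mulVec v r :=
        hc (mt x) (List.map_inj_left.1 hx4) hx3
      rw [ip_prod, ip_prod]
      apply Finset.sum_congr rfl
      intro r _
      by_cases hr : r ∈ R
      · have h3 : ∀ y : Fin n × Fin n → ZMod 2,
            ∑ c, (if r ∈ R then v c else 0) * y (r, c) = (mt y).mulVec v r := by
          intro y
          show _ = ∑ c, y (r, c) * v c
          apply Finset.sum_congr rfl
          intro c _
          rw [if_pos hr, mul_comm]
        show ∑ c, (if r ∈ R then v c else 0) * x (r, c) =
          ∑ c, (if r ∈ R then v c else 0) * en M (r, c)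
        rw [h3, h3]
        exact hx6 r hr
      · apply Finset.sum_congr rfl
        intro c _
        show (if r ∈ R then v c else 0) * x (r, c) = (if r ∈ R then v c else 0) * en M (r, c)
        rw [if_neg hr, zero_mul, zero_mul])
  obtain ⟨W, hW, hwt⟩ := key
  have h7 : dist v h * R.card ≤ wt ((fun e => if e.1 ∈ R then v e.2 else 0) + W) := by
    rw [wt_prod, mul_comm, ← smul_eq_mul, ← Finset.sum_const]
    refine le_trans ?_ (Finset.sum_le_sum_of_subset (Finset.subset_univ R))
    apply Finset.sum_le_sum
    intro r hr
    unfold dist
    apply Nat.sInf_le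
    refine ⟨fun c => W (r, c), hW r, ?_⟩
    unfold hammingDist
    congr 1
    apply Finset.filter_congr
    intro c _
    show v c ≠ W (r, c) ↔ (if r ∈ R then v c else 0) + W (r, c) ≠ 0
    rw [if_pos hr]
    apply not_congr
    constructor
    · intro h8
      rw [h8]
      exact CharTwo.add_self_eq_zero _
    · exact eq_of_add_eq_zero _ _
  have h9 : 2 * D * w * l.length = 2 * (D * w * l.length) := by ring
  rw [h9]
  exact h7.trans hwt

/-- **the probes of a single run** -/
theorem pointwise {F : Type} [Field F] (hF : (2 : F) ≠ 0) {D : ℕ} (alg : Alg n Ω A w)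
    (hD : alg.DegreeLE F D) (hN : alg.NeverWrong) (ω : Ω) (M : Mat n) (vs : Fin n → Vec n)
    (q : Fin n) :
    dist (vs q) (before vs q) *
      (univ.filter (fun r => (alg.answer ω M vs q r).isSome = true)).card ≤
      2 * D * w * (alg.probes ω M vs q).length := by
  apply certificate hF alg hD ω (before vs q) (vs q) M (alg.probes ω M vs q)
  intro M' h1 h2 r hr
  have h3 : (before vs q).map M'.mulVec = (before vs q).map M.mulVec := List.map_inj_left.2 h1
  have h4 : alg.answer ω M' vs q = alg.answer ω M vs q := by
    unfold Alg.answer
    rw [h3]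
    exact (AC2.run_congr _ _ _ h2).1
  obtain ⟨b, hb⟩ := Option.isSome_iff_exists.1 (Finset.mem_filter.1 hr).2
  have h5 := hN ω M vs q r b hb
  have h6 := hN ω M' vs q r b (by rw [h4]; exact hb)
  rw [← h5, ← h6]

end Pool.Agent.TH163.OD
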