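import Pool.Agent.TH163.OD.Core

/-!
# The lower bound for random streams
-/

set_option autoImplicit false

namespace Pool.Agent.TH163.OD

open Finset
open Pool.Agent.H699R2.OMV (Prog Vec Mat IsProb before)

variable {n : ℕ} {Ω A : Type} {w : ℕ}

lemma sum_wt : ∑ u : Vec n, (1 / 8 : ℝ) ^ wt u = (9 / 8) ^ n := by
  have h1 : ∀ u : Vec n, (1 / 8 : ℝ) ^ wt u = ∏ c, (if u c ≠ 0 then (1 / 8 : ℝ) else 1) := by
    intro u
    unfold wt
    rw [Finset.prod_ite, Finset.prod_const, Finset.prod_const_one, mul_one]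
  simp only [h1]
  have h2 := Finset.prod_univ_sum (fun _ : Fin n => (univ : Finset (ZMod 2)))
    (fun _ t => if t ≠ 0 then (1 / 8 : ℝ) else 1)
  rw [Fintype.piFinset_univ] at h2
  rw [← h2]
  have h3 : ∑ t : ZMod 2, (if t ≠ 0 then (1 / 8 : ℝ) else 1) = 9 / 8 := by
    have h4 : (univ : Finset (ZMod 2)) = {0, 1} := by decide
    rw [h4, Finset.sum_pair (by decide)]
    rw [if_neg (by simp), if_pos (by decide)]
    norm_num
  rw [h3, Finset.prod_const, Finset.card_univ, Fintype.card_fin]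

lemma card_ball (k : ℕ) :
    ((univ.filter (fun u : Vec n => wt u ≤ k)).card : ℝ) ≤ (9 / 8) ^ n * 8 ^ k := by
  have h1 : ((univ.filter (fun u : Vec n => wt u ≤ k)).card : ℝ) * (1 / 8) ^ k ≤ (9 / 8) ^ n := by
    rw [← sum_wt, ← nsmul_eq_mul, ← Finset.sum_const]
    refine le_trans ?_ (Finset.sum_le_sum_of_subset_of_nonneg (Finset.filter_subset
      (fun u : Vec n => wt u ≤ k) univ) (fun _ _ _ => by positivity))
    apply Finset.sum_le_sum
    intro u hu
    exact pow_le_pow_of_le_one (by norm_num) (by norm_num) (Finset.mem_filter.1 hu).2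
  have h2 : (1 / 8 : ℝ) ^ k * 8 ^ k = 1 := by
    rw [← mul_pow]
    norm_num
  calc ((univ.filter (fun u : Vec n => wt u ≤ k)).card : ℝ)
      = (((univ.filter (fun u : Vec n => wt u ≤ k)).card : ℝ) * (1 / 8) ^ k) * 8 ^ k := by
        rw [mul_assoc, h2, mul_one]
    _ ≤ _ := mul_le_mul_of_nonneg_right h1 (by positivity)

open Classical in
lemma card_span (h : List (Vec n)) :
    (univ.filter (· ∈ Submodule.span (ZMod 2) {z | z ∈ h})).card ≤ 2 ^ h.length := by
  have h1 : (univ.filter (· ∈ Submodule.span (ZMod 2) {z | z ∈ h})).card =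
      2 ^ Module.finrank (ZMod 2) (Submodule.span (ZMod 2) {z | z ∈ h}) := by
    have h2 : Nat.card (Submodule.span (ZMod 2) {z | z ∈ h}) =
        Nat.card (ZMod 2) ^ Module.finrank (ZMod 2) (Submodule.span (ZMod 2) {z | z ∈ h}) :=
      Module.natCard_eq_pow_finrank
    rw [Nat.card_zmod] at h2
    rw [← h2, Nat.card_eq_fintype_card, Fintype.card_subtype]
  rw [h1]
  apply Nat.pow_le_pow_right (by norm_num)
  have h3 : {z | z ∈ h} = ((h.toFinset : Finset (Vec n)) : Set (Vec n)) := by
    ext z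
    simp
  rw [h3]
  exact (finrank_span_finset_le_card _).trans (List.toFinset_card_le h)

lemma exists_dist (v : Vec n) (h : List (Vec n)) :
    ∃ z ∈ Submodule.span (ZMod 2) {z | z ∈ h}, hammingDist v z = dist v h := by
  have h1 : {d | ∃ z ∈ Submodule.span (ZMod 2) {z | z ∈ h}, hammingDist v z = d}.Nonempty :=
    ⟨_, 0, Submodule.zero_mem _, rfl⟩
  exact Nat.sInf_mem h1

lemma card_near (h : List (Vec n)) (k : ℕ) :
    ((univ.filter (fun v : Vec n => dist v h ≤ k)).card : ℝ) ≤
      2 ^ h.length * ((9 / 8) ^ n * 8 ^ k) := by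
  classical
  have h1 : (univ.filter (fun v : Vec n => dist v h ≤ k)) ⊆
      ((univ.filter (· ∈ Submodule.span (ZMod 2) {z | z ∈ h})) ×ˢ
        (univ.filter (fun u : Vec n => wt u ≤ k))).image (fun p => p.2 + p.1) := by
    intro v hv
    obtain ⟨z, hz, hd⟩ := exists_dist v h
    rw [Finset.mem_image]
    refine ⟨(z, v + z), ?_, ?_⟩
    · rw [Finset.mem_product, Finset.mem_filter, Finset.mem_filter]
      refine ⟨⟨Finset.mem_univ _, hz⟩, Finset.mem_univ _, ?_⟩
      have h2 : wt (v + z) = hammingDist v z := by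
        unfold wt hammingDist
        congr 1
        apply Finset.filter_congr
        intro c _
        rw [Pi.add_apply]
        apply not_congr
        constructor
        · exact eq_of_add_eq_zero _ _
        · intro h8
          rw [h8]
          exact CharTwo.add_self_eq_zero _
      show wt (v + z) ≤ k
      rw [h2, hd]
      exact (Finset.mem_filter.1 hv).2
    · show v + z + z = v
      rw [add_assoc, ZModModule.add_self, add_zero]
  have h3 := (Finset.card_le_card h1).trans Finset.card_image_le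
  rw [Finset.card_product] at h3
  calc ((univ.filter (fun v : Vec n => dist v h ≤ k)).card : ℝ)
      ≤ (((univ.filter (· ∈ Submodule.span (ZMod 2) {z | z ∈ h})).card *
        (univ.filter (fun u : Vec n => wt u ≤ k)).card : ℕ) : ℝ) := by exact_mod_cast h3
    _ = ((univ.filter (· ∈ Submodule.span (ZMod 2) {z | z ∈ h})).card : ℝ) *
        ((univ.filter (fun u : Vec n => wt u ≤ k)).card : ℝ) := by push_cast; rfl
    _ ≤ 2 ^ h.length * ((9 / 8) ^ n * 8 ^ k) := by
        have h5 : ((univ.filter (· ∈ Submodule.span (ZMod 2) {z | z ∈ h})).card : ℝ) ≤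
            2 ^ h.length := by exact_mod_cast card_span h
        exact mul_le_mul h5 (card_ball k) (Nat.cast_nonneg _) (by positivity)

lemma pow_aux (c a b : ℝ) (ha : 0 ≤ a) (hab : a ≤ b) (h8 : c * a ^ 8 ≤ b ^ 8) (m : ℕ)
    (hm : 8 ≤ m) : c * a ^ m ≤ b ^ m := by
  induction m, hm using Nat.le_induction with
  | base => exact h8
  | succ m _ ih =>
    rw [pow_succ a m, pow_succ b m, ← mul_assoc]
    exact mul_le_mul ih hab ha (pow_nonneg (ha.trans hab) m)

lemma numeric (hn : 8 ≤ n) (q : ℕ) (hq : 2 * q ≤ n) :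
    (2 : ℝ) ^ q * ((9 / 8) ^ n * 8 ^ (n / 16)) ≤ 2 ^ n / 2 := by
  have h0 : ∀ m : ℕ, 8 ≤ m → (2 : ℝ) ^ 16 * (2 ^ 11 * (9 / 8) ^ 16) ^ m ≤ (2 ^ 16) ^ m := by
    intro m hm
    exact pow_aux (2 ^ 16) (2 ^ 11 * (9 / 8) ^ 16) (2 ^ 16) (by positivity) (by norm_num)
      (by norm_num) m hm
  have h1 : ((2 : ℝ) ^ q * ((9 / 8) ^ n * 8 ^ (n / 16))) ^ 16 ≤ (2 ^ n / 2) ^ 16 := by
    have e1 : ((2 : ℝ) ^ q) ^ 16 ≤ (2 ^ 8) ^ n := by
      rw [← pow_mul, ← pow_mul]
      exact pow_le_pow_right₀ (by norm_num) (by omega)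
    have e2 : ((8 : ℝ) ^ (n / 16)) ^ 16 ≤ 8 ^ n := by
      rw [← pow_mul]
      exact pow_le_pow_right₀ (by norm_num) (by omega)
    have e3 : (((9 : ℝ) / 8) ^ n) ^ 16 = ((9 / 8) ^ 16) ^ n := by
      rw [← pow_mul, ← pow_mul, mul_comm]
    have e4 : ((2 : ℝ) ^ n / 2) ^ 16 = (2 ^ 16) ^ n / 2 ^ 16 := by
      rw [div_pow, ← pow_mul, ← pow_mul, mul_comm]
    rw [mul_pow, mul_pow, e3, e4, le_div_iff₀ (by positivity)]
    calc ((2 : ℝ) ^ q) ^ 16 * (((9 / 8) ^ 16) ^ n * (8 ^ (n / 16)) ^ 16) * 2 ^ 16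
        ≤ (2 ^ 8) ^ n * (((9 / 8) ^ 16) ^ n * 8 ^ n) * 2 ^ 16 := by gcongr
      _ = 2 ^ 16 * (2 ^ 11 * (9 / 8) ^ 16) ^ n := by
          rw [← mul_pow, ← mul_pow, mul_comm]
          congr 2
          norm_num
      _ ≤ (2 ^ 16) ^ n := h0 n hn
  exact le_of_pow_le_pow_left₀ (by norm_num) (by positivity) h1

/-- most vectors are far from a span of small dimension -/
lemma card_far (hn : 8 ≤ n) (h : List (Vec n)) (hq : 2 * h.length ≤ n) :
    (2 : ℝ) ^ n / 2 ≤ ((univ.filter (fun v : Vec n => n / 16 < dist v h)).card : ℝ) := by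
  have h1 := (card_near h (n / 16)).trans (numeric hn h.length hq)
  have h2 := Finset.card_filter_add_card_filter_not (s := (univ : Finset (Vec n)))
    (fun v : Vec n => dist v h ≤ n / 16)
  have h3 : (univ.filter (fun v : Vec n => ¬ dist v h ≤ n / 16)) =
      univ.filter (fun v : Vec n => n / 16 < dist v h) := by
    apply Finset.filter_congr
    intro v _
    exact not_le
  rw [h3, Finset.card_univ, Fintype.card_fun, ZMod.card, Fintype.card_fin] at h2
  have h4 : ((univ.filter (fun v : Vec n => dist v h ≤ n / 16)).card : ℝ) +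
      ((univ.filter (fun v : Vec n => n / 16 < dist v h)).card : ℝ) = 2 ^ n := by
    exact_mod_cast h2
  linarith

theorem streams [Fintype Ω] (hn : 8 ≤ n) {F : Type} [Field F] (hF : (2 : F) ≠ 0) {D : ℕ}
    (μ : Ω → ℝ) (hμ : IsProb μ) (alg : Alg n Ω A w) (hD : alg.DegreeLE F D)
    (hN : alg.NeverWrong) (M : Mat n) {γ : ℝ} (hγ : 0 ≤ γ)
    (hA : ∀ (vs : Fin n → Vec n) (q r : Fin n),
      γ ≤ ∑ ω, μ ω * (if (alg.answer ω M vs q r).isSome = true then (1 : ℝ) else 0)) :
    γ * n ^ 3 / 128 ≤ D * w * ((∑ vs : Fin n → Vec n, ∑ ω, μ ω *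
      ∑ q, ((alg.probes ω M vs q).length : ℝ)) / (Fintype.card (Fin n → Vec n) : ℝ)) := by
  classical
  have hcV : (0 : ℝ) < (Fintype.card (Fin n → Vec n) : ℝ) := by
    exact_mod_cast Fintype.card_pos
  have hV : (Fintype.card (Vec n) : ℝ) = 2 ^ n := by
    rw [Fintype.card_fun, ZMod.card, Fintype.card_fin]
    push_cast
    rfl
  let T : (Fin n → Vec n) → Fin n → ℝ :=
    fun vs q => ∑ ω, μ ω * ((alg.probes ω M vs q).length : ℝ)
  have hT0 : ∀ vs q, 0 ≤ T vs q := by
    intro vs q
    apply Finset.sum_nonneg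
    intro ω _
    exact mul_nonneg (hμ.nonneg ω) (by positivity)
  have hone : ∀ vs q, (dist (vs q) (before vs q) : ℝ) * (n * γ) ≤ 2 * D * w * T vs q := by
    intro vs q
    have h1 : (n : ℝ) * γ ≤ ∑ ω, μ ω *
        ((univ.filter (fun r => (alg.answer ω M vs q r).isSome = true)).card : ℝ) := by
      have h2 : ∑ ω, μ ω *
          ((univ.filter (fun r => (alg.answer ω M vs q r).isSome = true)).card : ℝ) =
          ∑ r, ∑ ω, μ ω * (if (alg.answer ω M vs q r).isSome = true then (1 : ℝ) else 0) := by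
        rw [Finset.sum_comm]
        apply Finset.sum_congr rfl
        intro ω _
        rw [← Finset.mul_sum]
        congr 1
        rw [Finset.card_filter]
        push_cast
        rfl
      rw [h2]
      calc (n : ℝ) * γ = ∑ _r : Fin n, γ := by simp
        _ ≤ _ := Finset.sum_le_sum (fun r _ => hA vs q r)
    calc (dist (vs q) (before vs q) : ℝ) * (n * γ)
        ≤ (dist (vs q) (before vs q) : ℝ) * ∑ ω, μ ω *
          ((univ.filter (fun r => (alg.answer ω M vs q r).isSome = true)).card : ℝ) :=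
          mul_le_mul_of_nonneg_left h1 (by positivity)
      _ = ∑ ω, μ ω * ((dist (vs q) (before vs q) *
          (univ.filter (fun r => (alg.answer ω M vs q r).isSome = true)).card : ℕ) : ℝ) := by
          rw [Finset.mul_sum]
          apply Finset.sum_congr rfl
          intro ω _
          push_cast
          ring
      _ ≤ ∑ ω, μ ω * ((2 * D * w * (alg.probes ω M vs q).length : ℕ) : ℝ) := by
          apply Finset.sum_le_sum
          intro ω _
          apply mul_le_mul_of_nonneg_left _ (hμ.nonneg ω)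
          exact_mod_cast pointwise hF alg hD hN ω M vs q
      _ = 2 * D * w * T vs q := by
          show _ = 2 * D * w * ∑ ω, μ ω * ((alg.probes ω M vs q).length : ℝ)
          rw [Finset.mul_sum]
          apply Finset.sum_congr rfl
          intro ω _
          push_cast
          ring
  have hq : ∀ q : Fin n, 2 * q.val ≤ n →
      (Fintype.card (Fin n → Vec n) : ℝ) * (n ^ 2 * γ / 32) ≤ 2 * D * w * ∑ vs, T vs q := by
    intro q hq
    rw [Finset.mul_sum, AC2.sum_resample (fun vs : Fin n → Vec n => 2 * D * w * T vs q) q,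
      ← nsmul_eq_mul, ← Finset.card_univ, ← Finset.sum_const]
    apply Finset.sum_le_sum
    intro vs _
    rw [hV, le_div_iff₀ (by positivity)]
    have h3 := card_far hn (before vs q) (by rw [AC2.before_length]; exact hq)
    have h4 : ∀ v ∈ univ.filter (fun v : Vec n => n / 16 < dist v (before vs q)),
        (n : ℝ) / 16 * (n * γ) ≤ 2 * D * w * T (Function.update vs q v) q := by
      intro v hv
      have h5 := hone (Function.update vs q v) q
      rw [AC2.before_update, Function.update_self] at h5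
      refine le_trans ?_ h5
      apply mul_le_mul_of_nonneg_right _ (by positivity)
      have h6 := (Finset.mem_filter.1 hv).2
      have h7 : n ≤ 16 * dist v (before vs q) := by omega
      have h8 : (n : ℝ) ≤ 16 * (dist v (before vs q) : ℝ) := by exact_mod_cast h7
      linarith
    calc (n : ℝ) ^ 2 * γ / 32 * 2 ^ n = (2 ^ n / 2) * ((n : ℝ) / 16 * (n * γ)) := by ring
      _ ≤ ((univ.filter (fun v : Vec n => n / 16 < dist v (before vs q))).card : ℝ) *
          ((n : ℝ) / 16 * (n * γ)) := mul_le_mul_of_nonneg_right h3 (by positivity)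
      _ = ∑ _v ∈ univ.filter (fun v : Vec n => n / 16 < dist v (before vs q)),
          (n : ℝ) / 16 * (n * γ) := by rw [Finset.sum_const, nsmul_eq_mul]
      _ ≤ ∑ v ∈ univ.filter (fun v : Vec n => n / 16 < dist v (before vs q)),
          2 * D * w * T (Function.update vs q v) q := Finset.sum_le_sum h4
      _ ≤ ∑ v, 2 * D * w * T (Function.update vs q v) q := by
          apply Finset.sum_le_sum_of_subset_of_nonneg (Finset.filter_subset _ _)
          intro v _ _
          exact mul_nonneg (by positivity) (hT0 _ _)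
  have htot : ∑ vs : Fin n → Vec n, ∑ ω, μ ω * ∑ q, ((alg.probes ω M vs q).length : ℝ) =
      ∑ q, ∑ vs, T vs q := by
    rw [Finset.sum_comm (s := (univ : Finset (Fin n)))]
    apply Finset.sum_congr rfl
    intro vs _
    show _ = ∑ q, ∑ ω, μ ω * ((alg.probes ω M vs q).length : ℝ)
    rw [Finset.sum_comm]
    apply Finset.sum_congr rfl
    intro ω _
    rw [Finset.mul_sum]
  rw [htot, ← mul_div_assoc, le_div_iff₀ hcV]
  have hcard : (univ.filter (fun q : Fin n => q.val < n / 2 + 1)).card = n / 2 + 1 := by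
    rw [Fin.card_filter_val_lt, min_eq_right (by omega)]
  have h9 := Finset.card_nsmul_le_sum (univ.filter (fun q : Fin n => q.val < n / 2 + 1))
    (fun q => 2 * D * w * ∑ vs, T vs q)
    ((Fintype.card (Fin n → Vec n) : ℝ) * (n ^ 2 * γ / 32)) (by
      intro q hq'
      apply hq q
      have := (Finset.mem_filter.1 hq').2
      omega)
  rw [hcard, nsmul_eq_mul] at h9
  have h10 : (n : ℝ) / 2 ≤ ((n / 2 + 1 : ℕ) : ℝ) := by
    have : n ≤ 2 * (n / 2 + 1) := by omega
    have h11 : (n : ℝ) ≤ 2 * ((n / 2 + 1 : ℕ) : ℝ) := by exact_mod_cast this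
    linarith
  have h12 : ∑ q ∈ univ.filter (fun q : Fin n => q.val < n / 2 + 1),
      (2 * D * w * ∑ vs, T vs q) ≤ 2 * D * w * ∑ q, ∑ vs, T vs q := by
    rw [Finset.mul_sum]
    apply Finset.sum_le_sum_of_subset_of_nonneg (Finset.filter_subset _ _)
    intro q _ _
    exact mul_nonneg (by positivity) (Finset.sum_nonneg (fun vs _ => hT0 vs q))
  have h13 : (n : ℝ) / 2 * ((Fintype.card (Fin n → Vec n) : ℝ) * (n ^ 2 * γ / 32)) ≤
      ((n / 2 + 1 : ℕ) : ℝ) * ((Fintype.card (Fin n → Vec n) : ℝ) * (n ^ 2 * γ / 32)) :=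
    mul_le_mul_of_nonneg_right h10 (by positivity)
  have h14 := (h13.trans h9).trans h12
  have h15 : (n : ℝ) / 2 * ((Fintype.card (Fin n → Vec n) : ℝ) * (n ^ 2 * γ / 32)) =
      2 * (γ * n ^ 3 / 128 * (Fintype.card (Fin n → Vec n) : ℝ)) := by ring
  rw [h15] at h14
  linarith

end Pool.Agent.TH163.OD
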