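import Pool.Agent.H699R2.OMV.Model

/-!
# Online matrix-vector multiplication over `ZMod 2`: memory of low degree over other fields

The cell-probe model of the starting library `Pool/Agent/H699R2/OMV/Model.lean` for algorithms
without errors, which may refuse to answer. The programs also know the earlier products.
-/

set_option autoImplicit false

namespace Pool.Agent.TH163.OD

open Pool.Agent.H699R2.OMV (Prog Vec Mat IsProb before)

/-- A randomised algorithm for online matrix-vector multiplication over `ZMod 2` in the cell-probe
model with cells of `w` bits. `Ω` is the set of outcomes of its coins, `A` the set of addresses.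
`mem ω h M` is the content of the memory when the vectors in the list `h` have been processed, and
`prog ω h y v` is the program run on the next vector `v`; here `h` is the list of the earlier
vectors and `y` the list of the earlier (correct) products. For each bit of the product it gives the
bit or `none` (no answer). -/
structure Alg (n : ℕ) (Ω A : Type) (w : ℕ) where
  mem : Ω → List (Vec n) → Mat n → A → Fin w → Bool
  prog : Ω → List (Vec n) → List (Vec n) → Vec n →
    Prog A (Fin w → Bool) (Fin n → Option (ZMod 2))

namespace Alg

variable {n : ℕ} {Ω A : Type} {w : ℕ}

/-- The answer to the `q`-th vector of the stream `vs`. -/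
def answer (alg : Alg n Ω A w) (ω : Ω) (M : Mat n) (vs : Fin n → Vec n) (q : Fin n) :
    Fin n → Option (ZMod 2) :=
  (alg.prog ω (before vs q) ((before vs q).map M.mulVec) (vs q)).out
    (alg.mem ω (before vs q) M)

/-- The addresses probed while the `q`-th vector of the stream `vs` is processed. -/
def probes (alg : Alg n Ω A w) (ω : Ω) (M : Mat n) (vs : Fin n → Vec n) (q : Fin n) : List A :=
  (alg.prog ω (before vs q) ((before vs q).map M.mulVec) (vs q)).addrs
    (alg.mem ω (before vs q) M)

/-- No bit given as an answer is wrong. -/
def NeverWrong (alg : Alg n Ω A w) : Prop :=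
  ∀ (ω : Ω) (M : Mat n) (vs : Fin n → Vec n) (q r : Fin n) (b : ZMod 2),
    alg.answer ω M vs q r = some b → b = M.mulVec (vs q) r

/-- For given coins and earlier vectors every bit of every cell is a polynomial of degree at
most `D` over the field `F` in the entries of the matrix (which are `0` or `1`). -/
def DegreeLE (F : Type) [Field F] (D : ℕ) (alg : Alg n Ω A w) : Prop :=
  ∀ (ω : Ω) (h : List (Vec n)) (a : A) (i : Fin w), ∃ P : MvPolynomial (Fin n × Fin n) F,
    P.totalDegree ≤ D ∧ ∀ M : Mat n,
      MvPolynomial.eval (fun e => if M e.1 e.2 = 1 then (1 : F) else 0) P =
        if alg.mem ω h M a i = true then 1 else 0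

end Alg

/-- The Hamming distance of a vector from the span of the vectors in a list. -/
noncomputable def dist {n : ℕ} (v : Vec n) (h : List (Vec n)) : ℕ :=
  sInf {d | ∃ z ∈ Submodule.span (ZMod 2) {z | z ∈ h}, hammingDist v z = d}

end Pool.Agent.TH163.OD
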