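import Pool.Agent.TH163.OD.Final
import Pool.Agent.TH163.BO.Amp

/-!
# The algorithm
-/

set_option autoImplicit false

namespace Pool.Agent.TH163.OD

open Finset
open Pool.Agent.H699R2.OMV (Prog Vec Mat IsProb before)
open Pool.Agent.TH163.BO (bindP runAll out_bindP addrs_bindP out_runAll addrs_runAll)

variable {n : ℕ}

/-- the entries whose sum is bit `i` of cell `a` -/
def piece (D w : ℕ) (a : Fin (n / w + 1) × Fin (n / D + 1) × (Fin D → Bool)) (i : Fin w) :
    Finset (Fin n × Fin n) :=
  univ.filter (fun e => (e.1 : ℕ) / w = a.1 ∧ (e.1 : ℕ) % w = i ∧ (e.2 : ℕ) / D = a.2.1 ∧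
    ∃ j : Fin D, (e.2 : ℕ) % D = j ∧ a.2.2 j = true)

lemma card_piece (D w : ℕ) (hD : 0 < D)
    (a : Fin (n / w + 1) × Fin (n / D + 1) × (Fin D → Bool)) (i : Fin w) :
    (piece D w a i).card ≤ D := by
  have h : (piece D w a i).card ≤ (Finset.range D).card := by
    apply Finset.card_le_card_of_injOn (fun e => (e.2 : ℕ) % D)
    · intro e _
      exact Finset.mem_coe.2 (Finset.mem_range.2 (Nat.mod_lt _ hD))
    · intro e he e' he' hee
      have h1 := (Finset.mem_filter.1 (Finset.mem_coe.1 he)).2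
      have h2 := (Finset.mem_filter.1 (Finset.mem_coe.1 he')).2
      have h3 : (e.2 : ℕ) % D = (e'.2 : ℕ) % D := hee
      apply Prod.ext
      · apply Fin.ext
        rw [← Nat.div_add_mod (e.1 : ℕ) w, ← Nat.div_add_mod (e'.1 : ℕ) w, h1.1, h1.2.1, h2.1,
          h2.2.1]
      · apply Fin.ext
        rw [← Nat.div_add_mod (e.2 : ℕ) D, ← Nat.div_add_mod (e'.2 : ℕ) D, h1.2.2.1, h2.2.2.1, h3]
  rwa [Finset.card_range] at h

/-- The matrix is cut into pieces of `w` rows and `D` columns; for every set of columns of a piece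
there is a cell which contains, for each of the `w` rows, the sum of the entries in these columns.
-/
def blockAlg (n D w : ℕ) (hw : 0 < w) :
    Alg n Unit (Fin (n / w + 1) × Fin (n / D + 1) × (Fin D → Bool)) w where
  mem _ _ M a i := decide (∑ e ∈ piece D w a i, M e.1 e.2 = 1)
  prog _ _ _ v := bindP (runAll (n / w + 1) (fun g => runAll (n / D + 1) (fun b =>
      .probe (g, b, fun j => decide (∃ c : Fin n, (c : ℕ) = D * b + j ∧ v c = 1))
        (fun x => .done x))))
    (fun X => .done (fun r => some (∑ b, if X ⟨(r : ℕ) / w,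
      Nat.lt_succ_of_le (Nat.div_le_div_right r.2.le)⟩ b ⟨(r : ℕ) % w, Nat.mod_lt _ hw⟩ = true
        then 1 else 0)))

lemma blockAlg_answer {D w : ℕ} (hD : 0 < D) (hw : 0 < w) (M : Mat n) (vs : Fin n → Vec n)
    (q r : Fin n) : (blockAlg n D w hw).answer () M vs q r = some (M.mulVec (vs q) r) := by
  classical
  unfold Alg.answer blockAlg
  simp only
  rw [out_bindP]
  simp only [Prog.out, out_runAll]
  congr 1
  have hb : ∀ x : ZMod 2, (if decide (x = 1) = true then (1 : ZMod 2) else 0) = x := by decide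
  simp only [hb]
  have hcond : ∀ (b : Fin (n / D + 1)) (e : Fin n × Fin n),
      ((e.1 : ℕ) / w = (r : ℕ) / w ∧ (e.1 : ℕ) % w = (r : ℕ) % w ∧ (e.2 : ℕ) / D = (b : ℕ) ∧
        ∃ j : Fin D, (e.2 : ℕ) % D = j ∧
          decide (∃ c : Fin n, (c : ℕ) = D * b + j ∧ vs q c = 1) = true) ↔
      (e.1 = r ∧ (e.2 : ℕ) / D = (b : ℕ) ∧ vs q e.2 = 1) := by
    intro b e
    constructor
    · rintro ⟨h1, h2, h3, j, h4, h5⟩
      rw [decide_eq_true_iff] at h5
      obtain ⟨c, hc, hv⟩ := h5
      refine ⟨?_, h3, ?_⟩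
      · apply Fin.ext
        rw [← Nat.div_add_mod (e.1 : ℕ) w, ← Nat.div_add_mod (r : ℕ) w, h1, h2]
      · have : c = e.2 := by
          apply Fin.ext
          rw [hc, ← h3, ← h4]
          exact Nat.div_add_mod _ _
        rw [← this]
        exact hv
    · rintro ⟨h1, h2, h3⟩
      refine ⟨by rw [h1], by rw [h1], h2, ⟨(e.2 : ℕ) % D, Nat.mod_lt _ hD⟩, rfl, ?_⟩
      rw [decide_eq_true_iff]
      exact ⟨e.2, by rw [← h2]; exact (Nat.div_add_mod _ _).symm, h3⟩
  have h0 : ∀ b : Fin (n / D + 1), ∑ e ∈ piece D w ((⟨(r : ℕ) / w,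
      Nat.lt_succ_of_le (Nat.div_le_div_right r.2.le)⟩ : Fin (n / w + 1)), b,
        fun j => decide (∃ c : Fin n, (c : ℕ) = D * b + j ∧ vs q c = 1))
        (⟨(r : ℕ) % w, Nat.mod_lt _ hw⟩ : Fin w), M e.1 e.2 =
      ∑ e : Fin n × Fin n, if e.1 = r ∧ (e.2 : ℕ) / D = (b : ℕ) ∧ vs q e.2 = 1 then M e.1 e.2
        else 0 := by
    intro b
    unfold piece
    rw [Finset.sum_filter]
    apply Finset.sum_congr rfl
    intro e _
    exact if_congr (hcond b e) rfl rfl
  refine (Finset.sum_congr rfl (fun b _ => h0 b)).trans ?_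
  rw [Finset.sum_comm]
  have h2 : ∀ e : Fin n × Fin n, (∑ b : Fin (n / D + 1),
      if e.1 = r ∧ (e.2 : ℕ) / D = (b : ℕ) ∧ vs q e.2 = 1 then M e.1 e.2 else 0) =
      if e.1 = r then M e.1 e.2 * vs q e.2 else 0 := by
    intro e
    rw [Finset.sum_eq_single (⟨(e.2 : ℕ) / D,
      Nat.lt_succ_of_le (Nat.div_le_div_right e.2.2.le)⟩ : Fin (n / D + 1))]
    · by_cases h3 : e.1 = r
      · rcases bit01 (vs q e.2) with h4 | h4
        · rw [if_neg (by rintro ⟨_, _, h5⟩; rw [h4] at h5; exact absurd h5 (by decide)),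
            if_pos h3, h4, mul_zero]
        · rw [if_pos ⟨h3, rfl, h4⟩, if_pos h3, h4, mul_one]
      · rw [if_neg (fun h => h3 h.1), if_neg h3]
    · intro b _ hb'
      rw [if_neg]
      rintro ⟨_, h, _⟩
      exact hb' (Fin.ext h.symm)
    · intro h
      exact absurd (Finset.mem_univ _) h
  simp only [h2]
  rw [Fintype.sum_prod_type, Finset.sum_eq_single r]
  · apply Finset.sum_congr rfl
    intro c _
    rw [if_pos rfl]
  · intro r' _ hr
    apply Finset.sum_eq_zero
    intro c _
    rw [if_neg hr]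
  · intro h
    exact absurd (Finset.mem_univ _) h

lemma blockAlg_length {D w : ℕ} (hw : 0 < w) (M : Mat n) (vs : Fin n → Vec n) (q : Fin n) :
    ((blockAlg n D w hw).probes () M vs q).length = (n / w + 1) * (n / D + 1) := by
  unfold Alg.probes blockAlg
  simp only
  rw [addrs_bindP]
  simp only [Prog.addrs, List.append_nil]
  have key : ∀ {A W O : Type} (k : ℕ) (P : Fin k → Prog A W O) (m : A → W) (L : ℕ)
      (_ : ∀ i, ((P i).addrs m).length = L), ((runAll k P).addrs m).length = k * L := by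
    intro A W O k P m L hL
    have h := addrs_runAll k P m (fun _ => 1)
    simp only [List.map_const', List.sum_replicate, smul_eq_mul, mul_one] at h
    rw [h, Finset.sum_congr rfl (fun i _ => hL i)]
    simp
  apply key
  intro g
  have h1 := key (n / D + 1) (fun b => (Prog.probe (g, b, fun j =>
      decide (∃ c : Fin n, (c : ℕ) = D * b + j ∧ vs q c = 1)) (fun x => .done x) :
      Prog (Fin (n / w + 1) × Fin (n / D + 1) × (Fin D → Bool)) (Fin w → Bool)
        (Fin w → Bool))) ((blockAlg n D w hw).mem () (before vs q) M) 1 (fun b => rfl)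
  rw [mul_one] at h1
  exact h1

section

variable {F : Type} [Field F]

lemma sg_sum {κ : Type} (s : Finset κ) (f : κ → ZMod 2) :
    sg F (∑ e ∈ s, f e) = ∏ e ∈ s, sg F (f e) := by
  classical
  induction s using Finset.induction_on with
  | empty => rw [Finset.sum_empty, Finset.prod_empty, sg_zero]
  | insert a s ha ih => rw [Finset.sum_insert ha, Finset.prod_insert ha, sg_add, ih]

lemma blockAlg_degree (hF : (2 : F) ≠ 0) {D w : ℕ} (hD : 0 < D) (hw : 0 < w) :
    (blockAlg n D w hw).DegreeLE F D := by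
  intro ω h a i
  refine ⟨MvPolynomial.C (1 / 2) *
    (1 - ∏ e ∈ piece D w a i, (1 - MvPolynomial.C 2 * MvPolynomial.X e)), ?_, ?_⟩
  · refine (MvPolynomial.totalDegree_mul _ _).trans ?_
    rw [MvPolynomial.totalDegree_C, zero_add]
    refine (MvPolynomial.totalDegree_sub _ _).trans ?_
    rw [MvPolynomial.totalDegree_one]
    apply max_le (Nat.zero_le _)
    refine (MvPolynomial.totalDegree_finsetProd _ _).trans ?_
    calc ∑ e ∈ piece D w a i, (1 - MvPolynomial.C 2 * MvPolynomial.X e :
          MvPolynomial (Fin n × Fin n) F).totalDegree ≤ ∑ _e ∈ piece D w a i, 1 := by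
          apply Finset.sum_le_sum
          intro e _
          refine (MvPolynomial.totalDegree_sub _ _).trans ?_
          rw [MvPolynomial.totalDegree_one]
          apply max_le (Nat.zero_le _)
          refine (MvPolynomial.totalDegree_mul _ _).trans ?_
          rw [MvPolynomial.totalDegree_C, MvPolynomial.totalDegree_X]
      _ = (piece D w a i).card := by simp
      _ ≤ D := card_piece D w hD a i
  · intro M
    have h1 : ∀ e : Fin n × Fin n, 1 - 2 * (if M e.1 e.2 = 1 then (1 : F) else 0) =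
        sg F (M e.1 e.2) := by
      intro e
      rcases bit01 (M e.1 e.2) with h2 | h2
      · rw [h2, sg_zero, if_neg (by decide)]
        ring
      · rw [h2, sg_one, if_pos rfl]
        ring
    rw [map_mul, map_sub, map_one, map_prod]
    simp only [map_sub, map_one, map_mul, MvPolynomial.eval_C, MvPolynomial.eval_X, h1]
    rw [← sg_sum]
    show 1 / 2 * (1 - sg F (∑ e ∈ piece D w a i, M e.1 e.2)) =
      if decide (∑ e ∈ piece D w a i, M e.1 e.2 = 1) = true then 1 else 0
    rcases bit01 (∑ e ∈ piece D w a i, M e.1 e.2) with h2 | h2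
    · rw [h2, sg_zero, sub_self, mul_zero]
      rfl
    · rw [h2, sg_one, if_pos (by decide)]
      have h3 : (1 : F) - -1 = 2 := by ring
      rw [h3]
      field_simp

/-- **the upper bound** -/
theorem upper (hF : (2 : F) ≠ 0) {D w : ℕ} (hD1 : 1 ≤ D) (hDn : D ≤ n) (hw1 : 1 ≤ w)
    (hwn : w ≤ n) : ∃ (A : Type) (_ : Fintype A) (alg : Alg n Unit A w),
      Fintype.card A ≤ 4 * n ^ 2 * 2 ^ D ∧ alg.DegreeLE F D ∧
        ∀ (M : Mat n) (vs : Fin n → Vec n),
          (∀ q r : Fin n, alg.answer () M vs q r = some (M.mulVec (vs q) r)) ∧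
          D * w * ∑ q, (alg.probes () M vs q).length ≤ 4 * n ^ 3 := by
  refine ⟨_, inferInstance, blockAlg n D w hw1, ?_, blockAlg_degree hF hD1 hw1, ?_⟩
  · rw [Fintype.card_prod, Fintype.card_prod, Fintype.card_fun, Fintype.card_fin,
      Fintype.card_fin, Fintype.card_bool, Fintype.card_fin, ← mul_assoc]
    apply Nat.mul_le_mul_right
    have h3 : n / w + 1 ≤ 2 * n := by
      have := Nat.div_le_self n w
      omega
    have h4 : n / D + 1 ≤ 2 * n := by
      have := Nat.div_le_self n D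
      omega
    calc (n / w + 1) * (n / D + 1) ≤ (2 * n) * (2 * n) := Nat.mul_le_mul h3 h4
      _ = 4 * n ^ 2 := by ring
  intro M vs
  refine ⟨fun q r => blockAlg_answer hD1 hw1 M vs q r, ?_⟩
  simp only [blockAlg_length, Finset.sum_const, Finset.card_univ, Fintype.card_fin, smul_eq_mul]
  have h1 : w * (n / w + 1) ≤ 2 * n := by
    have := Nat.mul_div_le n w
    rw [mul_add, mul_one]
    omega
  have h2 : D * (n / D + 1) ≤ 2 * n := by
    have := Nat.mul_div_le n D
    rw [mul_add, mul_one]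
    omega
  calc D * w * (n * ((n / w + 1) * (n / D + 1))) =
      n * ((w * (n / w + 1)) * (D * (n / D + 1))) := by ring
    _ ≤ n * ((2 * n) * (2 * n)) := by gcongr
    _ = 4 * n ^ 3 := by ring

end

end Pool.Agent.TH163.OD
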